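import Pool.Agent.TH229.MB.Defs
import Pool.Agent.TH645.PG.Avg

/-!
Reduction to measurable data, the phase map and the transformation of the area.
-/

set_option autoImplicit false

namespace Pool.Agent.TH645.MB

open Real Filter Topology MeasureTheory Set
open Pool.Agent.TH229.PG (Leaf)
open Pool.Agent.TH229.MB (TwistData)
open scoped ENNReal

/-- the strip -/
def St (T : ℝ) : Set (ℝ × ℝ) := {z | z.1 < z.2 ∧ z.2 < z.1 + T}

lemma isOpen_St (T : ℝ) : IsOpen (St T) :=
  (isOpen_lt continuous_fst continuous_snd).inter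
    (isOpen_lt continuous_snd (continuous_fst.add continuous_const))

lemma cont_of_partials {T C : ℝ} {g g0 g1 : ℝ → ℝ → ℝ}
    (h0 : ∀ x x', x < x' → x' < x + T → HasDerivAt (fun z => g z x') (g0 x x') x)
    (h1 : ∀ x x', x < x' → x' < x + T → HasDerivAt (fun z => g x z) (g1 x x') x')
    (b0 : ∀ x x', x < x' → x' < x + T → |g0 x x'| ≤ C)
    (b1 : ∀ x x', x < x' → x' < x + T → |g1 x x'| ≤ C) :
    ContinuousOn (fun z : ℝ × ℝ => g z.1 z.2) (St T) := by
  intro z0 hz0
  refine ContinuousAt.continuousWithinAt ?_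
  obtain ⟨r, hr, hball⟩ := Metric.isOpen_iff.1 (isOpen_St T) z0 hz0
  have hb : ∀ x y : ℝ, |x - z0.1| < r → |y - z0.2| < r → x < y ∧ y < x + T := by
    intro x y hx hy
    have : ((x, y) : ℝ × ℝ) ∈ Metric.ball z0 r := by
      rw [Metric.mem_ball, Prod.dist_eq, max_lt_iff]
      exact ⟨hx, hy⟩
    exact hball this
  have key : ∀ᶠ z in 𝓝 z0, ‖g z.1 z.2 - g z0.1 z0.2‖ ≤
      C * |z.1 - z0.1| + C * |z.2 - z0.2| := by
    filter_upwards [Metric.ball_mem_nhds z0 hr] with z hz
    rw [Metric.mem_ball, Prod.dist_eq, max_lt_iff, Real.dist_eq, Real.dist_eq] at hz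
    have e1 := (convex_uIcc z0.1 z.1).norm_image_sub_le_of_norm_hasDerivWithin_le
      (f := fun x => g x z.2) (f' := fun x => g0 x z.2) (C := C) (x := z0.1) (y := z.1)
      (fun x hx => by
        have hx' : |x - z0.1| < r := (abs_sub_left_of_mem_uIcc hx).trans_lt hz.1
        obtain ⟨k1, k2⟩ := hb x z.2 hx' hz.2
        exact (h0 x z.2 k1 k2).hasDerivWithinAt)
      (fun x hx => by
        have hx' : |x - z0.1| < r := (abs_sub_left_of_mem_uIcc hx).trans_lt hz.1
        obtain ⟨k1, k2⟩ := hb x z.2 hx' hz.2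
        exact b0 x z.2 k1 k2) left_mem_uIcc right_mem_uIcc
    have e2 := (convex_uIcc z0.2 z.2).norm_image_sub_le_of_norm_hasDerivWithin_le
      (f := fun y => g z0.1 y) (f' := fun y => g1 z0.1 y) (C := C) (x := z0.2) (y := z.2)
      (fun y hy => by
        have hy' : |y - z0.2| < r := (abs_sub_left_of_mem_uIcc hy).trans_lt hz.2
        obtain ⟨k1, k2⟩ := hb z0.1 y (by simpa using hr) hy'
        exact (h1 z0.1 y k1 k2).hasDerivWithinAt)
      (fun y hy => by
        have hy' : |y - z0.2| < r := (abs_sub_left_of_mem_uIcc hy).trans_lt hz.2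
        obtain ⟨k1, k2⟩ := hb z0.1 y (by simpa using hr) hy'
        exact b1 z0.1 y k1 k2) left_mem_uIcc right_mem_uIcc
    have e3 : g z.1 z.2 - g z0.1 z0.2 = (g z.1 z.2 - g z0.1 z.2) + (g z0.1 z.2 - g z0.1 z0.2) := by
      ring
    rw [e3]
    refine (norm_add_le _ _).trans (add_le_add ?_ ?_)
    · exact e1
    · exact e2
  have hc : Continuous (fun z : ℝ × ℝ => C * |z.1 - z0.1| + C * |z.2 - z0.2|) := by fun_prop
  have hl : Tendsto (fun z : ℝ × ℝ => C * |z.1 - z0.1| + C * |z.2 - z0.2|) (𝓝 z0) (𝓝 0) := by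
    have := hc.tendsto z0
    simpa using this
  exact tendsto_iff_norm_sub_tendsto_zero.mpr
    (squeeze_zero' (Eventually.of_forall fun _ => norm_nonneg _) key hl)

open Classical in
/-- restriction to the strip -/
noncomputable def ind (T : ℝ) (g : ℝ → ℝ → ℝ) (x x' : ℝ) : ℝ :=
  if x < x' ∧ x' < x + T then g x x' else 0

lemma ind_pos {T : ℝ} (g : ℝ → ℝ → ℝ) {x x' : ℝ} (h : x < x') (h' : x' < x + T) :
    ind T g x x' = g x x' := if_pos ⟨h, h'⟩

lemma ind_per {T : ℝ} {g : ℝ → ℝ → ℝ} (h : ∀ x x', g (x + T) (x' + T) = g x x') (x x' : ℝ) :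
    ind T g (x + T) (x' + T) = ind T g x x' := by
  unfold ind
  rw [h]
  have e : (x + T < x' + T ∧ x' + T < x + T + T) ↔ (x < x' ∧ x' < x + T) := by
    constructor
    · rintro ⟨h1, h2⟩; constructor <;> linarith
    · rintro ⟨h1, h2⟩; constructor <;> linarith
  simp only [e]

lemma ind_meas {T : ℝ} {g : ℝ → ℝ → ℝ}
    (h : ContinuousOn (fun z : ℝ × ℝ => g z.1 z.2) (St T)) :
    Measurable (fun z : ℝ × ℝ => ind T g z.1 z.2) := by
  classical
  have h1 := ContinuousOn.measurable_piecewise h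
    (continuousOn_const (c := (0 : ℝ)) (s := (St T)ᶜ)) (isOpen_St T).measurableSet
  have e : (fun z : ℝ × ℝ => ind T g z.1 z.2) =
      (St T).piecewise (fun z : ℝ × ℝ => g z.1 z.2) (fun _ => 0) := by
    funext z
    unfold ind
    by_cases hz : z ∈ St T
    · rw [Set.piecewise_eq_of_mem _ _ _ hz]
      exact if_pos hz
    · rw [Set.piecewise_eq_of_notMem _ _ _ hz]
      exact if_neg hz
  rw [e]
  exact h1

lemma ind_d1 {T : ℝ} {g : ℝ → ℝ → ℝ} {c x x' : ℝ} (h : x < x') (h' : x' < x + T)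
    (hd : HasDerivAt (fun z => g x z) c x') : HasDerivAt (fun z => ind T g x z) c x' := by
  refine hd.congr_of_eventuallyEq ?_
  filter_upwards [Ioo_mem_nhds h h'] with z hz
  exact ind_pos g hz.1 hz.2

lemma ind_d0 {T : ℝ} {g : ℝ → ℝ → ℝ} {c x x' : ℝ} (h : x < x') (h' : x' < x + T)
    (hd : HasDerivAt (fun z => g z x') c x) : HasDerivAt (fun z => ind T g z x') c x := by
  refine hd.congr_of_eventuallyEq ?_
  have : x' - T < x := by linarith
  filter_upwards [Ioo_mem_nhds this h] with z hz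
  exact ind_pos g hz.2 (by linarith [hz.1])

/-- measurable data -/
structure MD (T C : ℝ) (p q a p0 q1 : ℝ → ℝ → ℝ) : Prop extends TwistData T C p q a p0 q1 where
  mp : Measurable (fun z : ℝ × ℝ => p z.1 z.2)
  mq : Measurable (fun z : ℝ × ℝ => q z.1 z.2)
  ma : Measurable (fun z : ℝ × ℝ => a z.1 z.2)
  mp0 : Measurable (fun z : ℝ × ℝ => p0 z.1 z.2)
  mq1 : Measurable (fun z : ℝ × ℝ => q1 z.1 z.2)

theorem MD_of {T C : ℝ} {p q a p0 q1 : ℝ → ℝ → ℝ} (H : TwistData T C p q a p0 q1) :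
    MD T C (ind T p) (ind T q) (ind T a) (ind T p0) (ind T q1) where
  Tpos := H.Tpos
  perp := ind_per H.perp
  perq := ind_per H.perq
  pera := ind_per H.pera
  perp0 := ind_per H.perp0
  perq1 := ind_per H.perq1
  dp1 := fun x x' h h' => by rw [ind_pos a h h']; exact ind_d1 h h' (H.dp1 x x' h h')
  dp0 := fun x x' h h' => by rw [ind_pos p0 h h']; exact ind_d0 h h' (H.dp0 x x' h h')
  dq1 := fun x x' h h' => by rw [ind_pos q1 h h']; exact ind_d1 h h' (H.dq1 x x' h h')
  dq0 := fun x x' h h' => by rw [ind_pos a h h']; exact ind_d0 h h' (H.dq0 x x' h h')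
  apos := fun x x' h h' => by rw [ind_pos a h h']; exact H.apos x x' h h'
  conta := H.conta.congr fun z hz => ind_pos a hz.1 hz.2
  contp0 := H.contp0.congr fun z hz => ind_pos p0 hz.1 hz.2
  contq1 := H.contq1.congr fun z hz => ind_pos q1 hz.1 hz.2
  ba := fun x x' h h' => by rw [ind_pos a h h']; exact H.ba x x' h h'
  bp0 := fun x x' h h' => by rw [ind_pos p0 h h']; exact H.bp0 x x' h h'
  bq1 := fun x x' h h' => by rw [ind_pos q1 h h']; exact H.bq1 x x' h h'
  cov := by
    intro x x' h h'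
    obtain ⟨τ, hl, h1, h2⟩ := H.cov x x' h h'
    refine ⟨τ, hl, h1, fun u => ?_⟩
    rw [ind_pos q (hl.above u) (hl.below u), ind_pos p (hl.above (τ u)) (hl.below (τ u))]
    exact h2 u
  mp := ind_meas (cont_of_partials H.dp0 H.dp1 H.bp0 H.ba)
  mq := ind_meas (cont_of_partials H.dq0 H.dq1 H.ba H.bq1)
  ma := ind_meas H.conta
  mp0 := ind_meas H.contp0
  mq1 := ind_meas H.contq1

/-! ### the phase map -/

section
variable {T C : ℝ} {p q a p0 q1 : ℝ → ℝ → ℝ} (H : MD T C p q a p0 q1)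
include H

theorem mono_p (x : ℝ) : StrictMonoOn (p x) (Ioo x (x + T)) := by
  refine strictMonoOn_of_deriv_pos (convex_Ioo _ _)
    (fun z hz => (H.dp1 x z hz.1 hz.2).continuousAt.continuousWithinAt) ?_
  intro z hz
  rw [interior_Ioo] at hz
  rw [(H.dp1 x z hz.1 hz.2).deriv]
  exact H.apos x z hz.1 hz.2

theorem mono_q (x : ℝ) : StrictMonoOn (fun y => q y x) (Ioo (x - T) x) := by
  refine strictMonoOn_of_deriv_pos (convex_Ioo _ _)
    (fun z hz => (H.dq0 z x hz.2 (by linarith [hz.1])).continuousAt.continuousWithinAt) ?_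
  intro z hz
  rw [interior_Ioo] at hz
  rw [(H.dq0 z x hz.2 (by linarith [hz.1])).deriv]
  exact H.apos z x hz.2 (by linarith [hz.1])

theorem ex_next {x x' : ℝ} (h : x < x') (h' : x' < x + T) :
    ∃ z ∈ Ioo x' (x' + T), p x' z = - q x x' := by
  obtain ⟨τ, hl, rfl, h2⟩ := H.cov x x' h h'
  refine ⟨τ (τ x), ⟨hl.above _, hl.below _⟩, ?_⟩
  linarith [h2 x]

omit H in
theorem leaf_surj {τ : ℝ → ℝ} (hl : Leaf T τ) (y : ℝ) : ∃ x, τ x = y := by
  refine hl.cont.surjective ?_ ?_ y
  · exact tendsto_atTop_mono (fun x => (hl.above x).le) tendsto_id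
  · refine tendsto_atBot_mono (fun x => (hl.below x).le) ?_
    exact tendsto_atBot_add_const_right _ T tendsto_id

theorem ex_prev {x z : ℝ} (h : x < z) (h' : z < x + T) :
    ∃ y ∈ Ioo (x - T) x, q y x = - p x z := by
  obtain ⟨τ, hl, rfl, h2⟩ := H.cov x z h h'
  obtain ⟨y, rfl⟩ := leaf_surj hl x
  refine ⟨y, ⟨by linarith [hl.below y], hl.above y⟩, ?_⟩
  linarith [h2 y]

end

/-- inverse of `p x` -/
noncomputable def X (T : ℝ) (p : ℝ → ℝ → ℝ) (x u : ℝ) : ℝ :=
  Classical.epsilon (fun z => z ∈ Ioo x (x + T) ∧ p x z = u)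

open Classical in
/-- the phase map -/
noncomputable def F (T : ℝ) (p q : ℝ → ℝ → ℝ) (z : ℝ × ℝ) : ℝ × ℝ :=
  if z.1 < z.2 ∧ z.2 < z.1 + T then (z.2, X T p z.2 (-q z.1 z.2)) else z

section
variable {T C : ℝ} {p q a p0 q1 : ℝ → ℝ → ℝ} (H : MD T C p q a p0 q1)
include H

theorem X_eq {x z u : ℝ} (hz : z ∈ Ioo x (x + T)) (h : p x z = u) : X T p x u = z := by
  have h1 := Classical.epsilon_spec (p := fun z => z ∈ Ioo x (x + T) ∧ p x z = u) ⟨z, hz, h⟩
  exact (mono_p H x).injOn h1.1 hz (h1.2.trans h.symm)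

theorem X_spec {x x' : ℝ} (h : x < x') (h' : x' < x + T) :
    X T p x' (-q x x') ∈ Ioo x' (x' + T) ∧ p x' (X T p x' (-q x x')) = - q x x' := by
  obtain ⟨z, hz, h1⟩ := ex_next H h h'
  rw [X_eq H hz h1]
  exact ⟨hz, h1⟩

omit H in
theorem F_in {z : ℝ × ℝ} (h : z.1 < z.2) (h' : z.2 < z.1 + T) :
    F T p q z = (z.2, X T p z.2 (-q z.1 z.2)) := if_pos ⟨h, h'⟩

omit H in
theorem F_out {z : ℝ × ℝ} (h : ¬ (z.1 < z.2 ∧ z.2 < z.1 + T)) : F T p q z = z := if_neg h

theorem F_leaf {τ : ℝ → ℝ} (hl : Leaf T τ) (hi : ∀ u, q u (τ u) + p (τ u) (τ (τ u)) = 0)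
    (u : ℝ) : F T p q (u, τ u) = (τ u, τ (τ u)) := by
  rw [F_in (hl.above u) (hl.below u)]
  simp only
  rw [X_eq H ⟨hl.above (τ u), hl.below (τ u)⟩ (by linarith [hi u])]

theorem F_per (x x' : ℝ) :
    F T p q (x + T, x' + T) = ((F T p q (x, x')).1 + T, (F T p q (x, x')).2 + T) := by
  by_cases h : x < x' ∧ x' < x + T
  · obtain ⟨τ, hl, rfl, hi⟩ := H.cov x x' h.1 h.2
    rw [F_leaf H hl hi, ← hl.per x, F_leaf H hl hi, hl.per, hl.per]
  · rw [F_out (z := (x, x')) h, F_out]
    rintro ⟨h1, h2⟩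
    simp only at h1 h2
    exact h ⟨by linarith, by linarith⟩

theorem measurable_F : Measurable (F T p q) := by
  have hS : MeasurableSet (St T) := (isOpen_St T).measurableSet
  have h1 : Measurable (fun z : ℝ × ℝ => (F T p q z).1) := by
    classical
    have e : (fun z : ℝ × ℝ => (F T p q z).1) = fun z => if z ∈ St T then z.2 else z.1 := by
      funext z
      by_cases hz : z ∈ St T
      · rw [if_pos hz, F_in hz.1 hz.2]
      · rw [if_neg hz, F_out hz]
    rw [e]
    exact Measurable.ite hS measurable_snd measurable_fst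
  have h2 : Measurable (fun z : ℝ × ℝ => (F T p q z).2) := by
    refine measurable_of_Iio fun c => ?_
    have e : (fun z : ℝ × ℝ => (F T p q z).2) ⁻¹' Iio c =
        (St T ∩ ({z : ℝ × ℝ | z.2 + T ≤ c} ∪
          {z : ℝ × ℝ | z.2 < c ∧ c < z.2 + T ∧ -q z.1 z.2 < p z.2 c})) ∪
        ((St T)ᶜ ∩ {z : ℝ × ℝ | z.2 < c}) := by
      ext z
      simp only [mem_preimage, mem_Iio, mem_union, mem_inter_iff, mem_compl_iff, mem_ofPred_eq]
      by_cases hz : z ∈ St T
      · rw [F_in hz.1 hz.2]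
        simp only
        obtain ⟨k1, k2⟩ := X_spec H hz.1 hz.2
        constructor
        · intro h
          refine Or.inl ⟨hz, ?_⟩
          by_cases hc : z.2 + T ≤ c
          · exact Or.inl hc
          · push Not at hc
            refine Or.inr ⟨k1.1.trans h, hc, ?_⟩
            have := (mono_p H z.2) k1 ⟨k1.1.trans h, hc⟩ h
            rwa [k2] at this
        · rintro (⟨-, h | ⟨h, h', h''⟩⟩ | ⟨h, -⟩)
          · exact k1.2.trans_le h
          · by_contra hcon
            push Not at hcon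
            have := (mono_p H z.2).monotoneOn ⟨h, h'⟩ k1 hcon
            rw [k2] at this
            linarith
          · exact absurd hz h
      · rw [F_out hz]
        constructor
        · intro h; exact Or.inr ⟨hz, h⟩
        · rintro (⟨h, -⟩ | ⟨-, h⟩)
          · exact absurd h hz
          · exact h
    rw [e]
    have m1 : Measurable (fun z : ℝ × ℝ => p z.2 c) :=
      H.mp.comp (measurable_snd.prodMk measurable_const)
    refine (hS.inter ((measurableSet_le (measurable_snd.add_const T) measurable_const).union ?_)).union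
      (hS.compl.inter (measurableSet_lt measurable_snd measurable_const))
    exact (measurableSet_lt measurable_snd measurable_const).inter
      ((measurableSet_lt measurable_const (measurable_snd.add_const T)).inter
        (measurableSet_lt H.mq.neg m1))
  exact h1.prodMk h2

/-- the image of `p x` -/
theorem inner1 (f : ℝ × ℝ → ℝ≥0∞) (x : ℝ) :
    ∫⁻ d in Ioo 0 T, ENNReal.ofReal (a x (x + d)) * f (x, x + d) =
      ∫⁻ u in (fun d => p x (x + d)) '' Ioo 0 T, f (x, X T p x u) := by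
  have hder : ∀ d ∈ Ioo 0 T, HasDerivWithinAt (fun d => p x (x + d)) (a x (x + d)) (Ioo 0 T) d := by
    intro d hd
    have h := H.dp1 x (x + d) (by linarith [hd.1]) (by linarith [hd.2])
    exact (h.comp_const_add x d).hasDerivWithinAt
  have hinj : InjOn (fun d => p x (x + d)) (Ioo 0 T) := by
    intro d hd e he h
    have := (mono_p H x).injOn (x₁ := x + d) (x₂ := x + e) ⟨by linarith [hd.1], by linarith [hd.2]⟩
      ⟨by linarith [he.1], by linarith [he.2]⟩ h
    linarith
  rw [lintegral_image_eq_lintegral_abs_deriv_mul measurableSet_Ioo hder hinj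
    (fun u => f (x, X T p x u))]
  refine setLIntegral_congr_fun measurableSet_Ioo fun d hd => ?_
  have hx : x + d ∈ Ioo x (x + T) := ⟨by linarith [hd.1], by linarith [hd.2]⟩
  rw [X_eq H hx rfl, abs_of_pos (H.apos x (x + d) hx.1 hx.2)]

theorem inner2 (f : ℝ × ℝ → ℝ≥0∞) (x : ℝ) :
    ∫⁻ d in Ioo 0 T, ENNReal.ofReal (a (x - d) x) * f (F T p q (x - d, x)) =
      ∫⁻ u in (fun d => p x (x + d)) '' Ioo 0 T, f (x, X T p x u) := by
  have him : (fun d => p x (x + d)) '' Ioo 0 T = (fun d => -q (x - d) x) '' Ioo 0 T := by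
    ext u
    constructor
    · rintro ⟨d, hd, rfl⟩
      obtain ⟨y, hy, h⟩ := ex_prev H (x := x) (z := x + d) (by linarith [hd.1]) (by linarith [hd.2])
      refine ⟨x - y, ⟨by linarith [hy.2], by linarith [hy.1]⟩, ?_⟩
      simp only
      rw [sub_sub_cancel, h, neg_neg]
    · rintro ⟨d, hd, rfl⟩
      obtain ⟨z, hz, h⟩ := ex_next H (x := x - d) (x' := x) (by linarith [hd.1])
        (by linarith [hd.2])
      refine ⟨z - x, ⟨by linarith [hz.1], by linarith [hz.2]⟩, ?_⟩
      simp only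
      rw [add_sub_cancel, h]
  have hder : ∀ d ∈ Ioo 0 T, HasDerivWithinAt (fun d => -q (x - d) x) (a (x - d) x)
      (Ioo 0 T) d := by
    intro d hd
    have h := H.dq0 (x - d) x (by linarith [hd.1]) (by linarith [hd.2])
    have h2 := (h.comp_const_sub x d).neg
    simp only [neg_neg] at h2
    exact h2.hasDerivWithinAt
  have hinj : InjOn (fun d => -q (x - d) x) (Ioo 0 T) := by
    intro d hd e he h
    simp only [neg_inj] at h
    have := (mono_q H x).injOn (x₁ := x - d) (x₂ := x - e)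
      ⟨by linarith [hd.2], by linarith [hd.1]⟩ ⟨by linarith [he.2], by linarith [he.1]⟩ h
    linarith
  rw [him, lintegral_image_eq_lintegral_abs_deriv_mul measurableSet_Ioo hder hinj
    (fun u => f (x, X T p x u))]
  refine setLIntegral_congr_fun measurableSet_Ioo fun d hd => ?_
  have k1 : x - d < x := by linarith [hd.1]
  have k2 : x < x - d + T := by linarith [hd.2]
  rw [F_in (z := (x - d, x)) k1 k2, abs_of_pos (H.apos (x - d) x k1 k2)]

open Pool.Agent.TH645.PG (om lint_swap) in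
/-- the phase map preserves the area `a dx dx'` -/
theorem lint_inv (f : ℝ × ℝ → ℝ≥0∞) (hf : Measurable f)
    (hper : ∀ x x', f (x + T, x' + T) = f (x, x')) :
    ∫⁻ z, ENNReal.ofReal (a z.1 (z.1 + z.2)) * f (F T p q (z.1, z.1 + z.2)) ∂(om T) =
      ∫⁻ z, ENNReal.ofReal (a z.1 (z.1 + z.2)) * f (z.1, z.1 + z.2) ∂(om T) := by
  have ma : Measurable (fun z : ℝ × ℝ => ENNReal.ofReal (a z.1 z.2)) := H.ma.ennreal_ofReal
  have mF := measurable_F H
  have h1 := lint_swap H.Tpos (fun z => ENNReal.ofReal (a z.1 z.2) * f (F T p q z))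
    (ma.mul (hf.comp mF)) (by
      intro x x'
      simp only
      rw [F_per H, H.pera, hper])
  simp only at h1
  rw [h1]
  unfold om
  have m1 : Measurable (fun z : ℝ × ℝ => ENNReal.ofReal (a (z.1 - z.2) z.1) *
      f (F T p q (z.1 - z.2, z.1))) :=
    (ma.comp ((measurable_fst.sub measurable_snd).prodMk measurable_fst)).mul
      ((hf.comp mF).comp ((measurable_fst.sub measurable_snd).prodMk measurable_fst))
  have m2 : Measurable (fun z : ℝ × ℝ => ENNReal.ofReal (a z.1 (z.1 + z.2)) *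
      f (z.1, z.1 + z.2)) :=
    (ma.comp (measurable_fst.prodMk (measurable_fst.add measurable_snd))).mul
      (hf.comp (measurable_fst.prodMk (measurable_fst.add measurable_snd)))
  rw [lintegral_prod _ m1.aemeasurable, lintegral_prod _ m2.aemeasurable]
  refine lintegral_congr fun x => ?_
  rw [inner1 H f x, inner2 H f x]

end

end Pool.Agent.TH645.MB
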