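import Pool.Agent.TH645.MB.Ind

/-!
The inequality along one orbit of a leaf, and its average.
-/

set_option autoImplicit false

namespace Pool.Agent.TH645.MB

open Real Filter Topology MeasureTheory Set
open Pool.Agent.TH229.PG (Leaf)
open Pool.Agent.TH229.MB (TwistData)
open Pool.Agent.TH645.PG (om om_eq om_ae ms1)
open scoped ENNReal

/-- joint limit of difference quotients in the first variable -/
theorem dq_joint {T : ℝ} {g g0 : ℝ → ℝ → ℝ}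
    (h0 : ∀ x x', x < x' → x' < x + T → HasDerivAt (fun z => g z x') (g0 x x') x)
    (hc : ContinuousOn (fun z : ℝ × ℝ => g0 z.1 z.2) (St T))
    {x x' : ℝ} (h : x < x') (h' : x' < x + T) :
    Tendsto (fun q : ℝ × ℝ => (g q.1 q.2 - g x q.2) / (q.1 - x)) (𝓝[>] x ×ˢ 𝓝 x')
      (𝓝 (g0 x x')) := by
  rw [Metric.tendsto_nhds]
  intro ε hε
  have hmem : ((x, x') : ℝ × ℝ) ∈ St T := ⟨h, h'⟩
  have hca : ContinuousAt (fun z : ℝ × ℝ => g0 z.1 z.2) (x, x') :=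
    hc.continuousAt ((isOpen_St T).mem_nhds hmem)
  have e1 : ∀ᶠ z : ℝ × ℝ in 𝓝 (x, x'), dist (g0 z.1 z.2) (g0 x x') < ε :=
    (Metric.tendsto_nhds.1 hca) ε hε
  have e2 : ∀ᶠ z : ℝ × ℝ in 𝓝 (x, x'), z ∈ St T := (isOpen_St T).mem_nhds hmem
  obtain ⟨r, hr, hball⟩ := Metric.eventually_nhds_iff.1 (e1.and e2)
  have f1 : ∀ᶠ z in 𝓝[>] x, x < z ∧ z < x + r := by
    have : Ioo x (x + r) ∈ 𝓝[>] x := Ioo_mem_nhdsGT (by linarith)
    filter_upwards [this] with z hz using hz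
  have f2 : ∀ᶠ z in 𝓝 x', |z - x'| < r := by
    have := Metric.ball_mem_nhds x' hr
    filter_upwards [this] with z hz
    simpa [Real.dist_eq] using hz
  filter_upwards [f1.prod_mk f2] with q hq
  obtain ⟨⟨hq1, hq2⟩, hq3⟩ := hq
  have hin : ∀ θ ∈ Icc x q.1, dist ((θ, q.2) : ℝ × ℝ) (x, x') < r := by
    intro θ hθ
    rw [Prod.dist_eq, max_lt_iff]
    constructor
    · rw [Real.dist_eq, abs_of_nonneg (by linarith [hθ.1])]; linarith [hθ.2]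
    · rw [Real.dist_eq]; exact hq3
  have hder : ∀ θ ∈ Icc x q.1, HasDerivAt (fun z => g z q.2) (g0 θ q.2) θ := by
    intro θ hθ
    have := (hball (hin θ hθ)).2
    exact h0 θ q.2 this.1 this.2
  obtain ⟨θ, hθ, he⟩ := exists_hasDerivAt_eq_slope (fun z => g z q.2) (fun z => g0 z q.2) hq1
    (fun θ hθ => (hder θ hθ).continuousAt.continuousWithinAt)
    (fun θ hθ => hder θ (Ioo_subset_Icc_self hθ))
  rw [← he]
  exact (hball (hin θ (Ioo_subset_Icc_self hθ))).1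

theorem dq_one {g : ℝ → ℝ → ℝ} {c x x' : ℝ} (hd : HasDerivAt (fun z => g x z) c x') :
    Tendsto (fun z => (g x z - g x x') / (z - x')) (𝓝[≠] x') (𝓝 c) := by
  refine (hasDerivAt_iff_tendsto_slope.1 hd).congr fun z => ?_
  rw [slope_def_field]

theorem amgm2 {A B r x y : ℝ} (hA : 0 ≤ A) (hB : 0 ≤ B) (hr : 0 < r) :
    2 * (Real.sqrt A * Real.sqrt B) * (x * y) ≤ A / r * y ^ 2 + B * r * x ^ 2 := by
  have h1 : A / r * y ^ 2 + B * r * x ^ 2 - 2 * (Real.sqrt A * Real.sqrt B) * (x * y) =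
      (Real.sqrt A * y - r * (Real.sqrt B * x)) ^ 2 / r := by
    have e1 := Real.sq_sqrt hA
    have e2 := Real.sq_sqrt hB
    rw [eq_div_iff hr.ne']
    have : (A / r * y ^ 2 + B * r * x ^ 2 - 2 * (Real.sqrt A * Real.sqrt B) * (x * y)) * r =
        A * y ^ 2 + B * r ^ 2 * x ^ 2 - 2 * (Real.sqrt A * Real.sqrt B) * (x * y) * r := by
      field_simp
    rw [this]
    nth_rewrite 1 [← e1]
    nth_rewrite 1 [← e2]
    ring
  have h2 : 0 ≤ (Real.sqrt A * y - r * (Real.sqrt B * x)) ^ 2 / r := by positivity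
  linarith

/-- algebra of the comparison of two orbits: `s n` and `t n` are the two approximations of the
mixed derivative on the edge `n`, `u n`, `v n` those of the derivatives `q1`, `p0` -/
theorem alg (M : ℕ) (η ξ s t u v : ℕ → ℝ) (hξ : ∀ n, 0 < ξ n)
    (h : ∀ n, s n * ξ n + (u n + v (n + 1)) * ξ (n + 1) + t (n + 1) * ξ (n + 2) = 0)
    (hs : ∀ n < M + 2, 0 ≤ s n) (ht : ∀ n < M + 2, 0 ≤ t n)
    (h0 : η 0 = 0) (hM : η (M + 2) = 0) :
    ∑ n ∈ Finset.range (M + 2), (u n * η (n + 1) ^ 2 + v n * η n ^ 2 +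
      2 * (Real.sqrt (s n) * Real.sqrt (t n)) * (η n * η (n + 1))) ≤ 0 := by
  have e1 : ∑ n ∈ Finset.range (M + 2), u n * η (n + 1) ^ 2 =
      ∑ n ∈ Finset.range (M + 1), u n * η (n + 1) ^ 2 := by
    rw [Finset.sum_range_succ, hM]
    ring
  have e2 : ∑ n ∈ Finset.range (M + 2), v n * η n ^ 2 =
      ∑ n ∈ Finset.range (M + 1), v (n + 1) * η (n + 1) ^ 2 := by
    rw [Finset.sum_range_succ', h0]
    ring
  have e3 : ∑ n ∈ Finset.range (M + 2), s n / (ξ (n + 1) / ξ n) * η (n + 1) ^ 2 =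
      ∑ n ∈ Finset.range (M + 1), s n / (ξ (n + 1) / ξ n) * η (n + 1) ^ 2 := by
    rw [Finset.sum_range_succ, hM]
    ring
  have e4 : ∑ n ∈ Finset.range (M + 2), t n * (ξ (n + 1) / ξ n) * η n ^ 2 =
      ∑ n ∈ Finset.range (M + 1), t (n + 1) * (ξ (n + 2) / ξ (n + 1)) * η (n + 1) ^ 2 := by
    rw [Finset.sum_range_succ', h0]
    ring
  have e5 : ∑ n ∈ Finset.range (M + 2),
      2 * (Real.sqrt (s n) * Real.sqrt (t n)) * (η n * η (n + 1)) ≤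
      ∑ n ∈ Finset.range (M + 2), (s n / (ξ (n + 1) / ξ n) * η (n + 1) ^ 2 +
        t n * (ξ (n + 1) / ξ n) * η n ^ 2) := by
    refine Finset.sum_le_sum fun n hn => ?_
    have hn' := Finset.mem_range.1 hn
    exact amgm2 (hs n hn') (ht n hn') (div_pos (hξ (n + 1)) (hξ n))
  have e6 : ∀ n ∈ Finset.range (M + 1), u n * η (n + 1) ^ 2 + v (n + 1) * η (n + 1) ^ 2 +
      (s n / (ξ (n + 1) / ξ n) * η (n + 1) ^ 2 +
        t (n + 1) * (ξ (n + 2) / ξ (n + 1)) * η (n + 1) ^ 2) = 0 := by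
    intro n _
    have k1 := hξ n
    have k2 := hξ (n + 1)
    have k3 := h n
    have k4 : u n * η (n + 1) ^ 2 + v (n + 1) * η (n + 1) ^ 2 +
      (s n / (ξ (n + 1) / ξ n) * η (n + 1) ^ 2 +
        t (n + 1) * (ξ (n + 2) / ξ (n + 1)) * η (n + 1) ^ 2) =
      (s n * ξ n + (u n + v (n + 1)) * ξ (n + 1) + t (n + 1) * ξ (n + 2)) *
        (η (n + 1) ^ 2 / ξ (n + 1)) := by
      field_simp
      ring
    rw [k4, k3, zero_mul]
  rw [Finset.sum_add_distrib, Finset.sum_add_distrib, e1, e2]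
  rw [Finset.sum_add_distrib, e3, e4] at e5
  have e7 := Finset.sum_eq_zero e6
  rw [Finset.sum_add_distrib, Finset.sum_add_distrib, Finset.sum_add_distrib] at e7
  linarith

section
variable {T C : ℝ} {p q a p0 q1 : ℝ → ℝ → ℝ} (H : MD T C p q a p0 q1)
include H

/-- inequality along one orbit -/
theorem leaf_ineq {τ : ℝ → ℝ} (hl : Leaf T τ)
    (hi : ∀ u, q u (τ u) + p (τ u) (τ (τ u)) = 0) (x : ℝ) (M : ℕ) (η : ℕ → ℝ)
    (h0 : η 0 = 0) (hM : η (M + 2) = 0) :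
    ∑ n ∈ Finset.range (M + 2), (q1 (τ^[n] x) (τ^[n + 1] x) * η (n + 1) ^ 2 +
      p0 (τ^[n] x) (τ^[n + 1] x) * η n ^ 2 +
      2 * a (τ^[n] x) (τ^[n + 1] x) * (η n * η (n + 1))) ≤ 0 := by
  have g1 : ∀ n, τ^[n] x < τ^[n + 1] x := fun n => by
    rw [Function.iterate_succ_apply']; exact hl.above _
  have g2 : ∀ n, τ^[n + 1] x < τ^[n] x + T := fun n => by
    rw [Function.iterate_succ_apply']; exact hl.below _
  have hT : ∀ n, Tendsto (fun z => τ^[n] z) (𝓝[>] x) (𝓝 (τ^[n] x)) := fun n =>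
    ((hl.cont.iterate n).tendsto x).mono_left nhdsWithin_le_nhds
  have hTg : ∀ n, Tendsto (fun z => τ^[n] z) (𝓝[>] x) (𝓝[>] (τ^[n] x)) := by
    intro n
    refine tendsto_nhdsWithin_iff.mpr ⟨hT n, ?_⟩
    filter_upwards [self_mem_nhdsWithin] with z hz
    exact hl.mono.iterate n hz
  have hT' : ∀ n, Tendsto (fun z => τ^[n] z) (𝓝[>] x) (𝓝[≠] (τ^[n] x)) := by
    intro n
    refine tendsto_nhdsWithin_iff.mpr ⟨hT n, ?_⟩
    filter_upwards [self_mem_nhdsWithin] with z hz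
    exact (hl.mono.iterate n hz).ne'
  have pa : ∀ n, 0 < a (τ^[n] x) (τ^[n + 1] x) := fun n => H.apos _ _ (g1 n) (g2 n)
  -- difference quotients
  have ts : ∀ n, Tendsto (fun z => (q (τ^[n] z) (τ^[n + 1] z) - q (τ^[n] x) (τ^[n + 1] z)) /
      (τ^[n] z - τ^[n] x)) (𝓝[>] x) (𝓝 (a (τ^[n] x) (τ^[n + 1] x))) := fun n =>
    (dq_joint H.dq0 H.conta (g1 n) (g2 n)).comp ((hTg n).prodMk (hT (n + 1)))
  have tv : ∀ n, Tendsto (fun z => (p (τ^[n] z) (τ^[n + 1] z) - p (τ^[n] x) (τ^[n + 1] z)) /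
      (τ^[n] z - τ^[n] x)) (𝓝[>] x) (𝓝 (p0 (τ^[n] x) (τ^[n + 1] x))) := fun n =>
    (dq_joint H.dp0 H.contp0 (g1 n) (g2 n)).comp ((hTg n).prodMk (hT (n + 1)))
  have tu : ∀ n, Tendsto (fun z => (q (τ^[n] x) (τ^[n + 1] z) - q (τ^[n] x) (τ^[n + 1] x)) /
      (τ^[n + 1] z - τ^[n + 1] x)) (𝓝[>] x) (𝓝 (q1 (τ^[n] x) (τ^[n + 1] x))) := fun n =>
    (dq_one (H.dq1 _ _ (g1 n) (g2 n))).comp (hT' (n + 1))
  have tt : ∀ n, Tendsto (fun z => (p (τ^[n] x) (τ^[n + 1] z) - p (τ^[n] x) (τ^[n + 1] x)) /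
      (τ^[n + 1] z - τ^[n + 1] x)) (𝓝[>] x) (𝓝 (a (τ^[n] x) (τ^[n + 1] x))) := fun n =>
    (dq_one (H.dp1 _ _ (g1 n) (g2 n))).comp (hT' (n + 1))
  have hspos : ∀ᶠ z in 𝓝[>] x, ∀ n ∈ Finset.range (M + 2),
      0 < (q (τ^[n] z) (τ^[n + 1] z) - q (τ^[n] x) (τ^[n + 1] z)) / (τ^[n] z - τ^[n] x) := by
    rw [Filter.eventually_all_finset]
    intro n _
    exact (ts n).eventually (lt_mem_nhds (pa n))
  have htpos : ∀ᶠ z in 𝓝[>] x, ∀ n ∈ Finset.range (M + 2),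
      0 < (p (τ^[n] x) (τ^[n + 1] z) - p (τ^[n] x) (τ^[n + 1] x)) /
      (τ^[n + 1] z - τ^[n + 1] x) := by
    rw [Filter.eventually_all_finset]
    intro n _
    exact (tt n).eventually (lt_mem_nhds (pa n))
  refine le_of_tendsto (?_ : Tendsto (fun z => ∑ n ∈ Finset.range (M + 2),
    ((q (τ^[n] x) (τ^[n + 1] z) - q (τ^[n] x) (τ^[n + 1] x)) / (τ^[n + 1] z - τ^[n + 1] x) *
        η (n + 1) ^ 2 +
      (p (τ^[n] z) (τ^[n + 1] z) - p (τ^[n] x) (τ^[n + 1] z)) / (τ^[n] z - τ^[n] x) * η n ^ 2 +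
      2 * (Real.sqrt ((q (τ^[n] z) (τ^[n + 1] z) - q (τ^[n] x) (τ^[n + 1] z)) /
          (τ^[n] z - τ^[n] x)) *
        Real.sqrt ((p (τ^[n] x) (τ^[n + 1] z) - p (τ^[n] x) (τ^[n + 1] x)) /
          (τ^[n + 1] z - τ^[n + 1] x))) * (η n * η (n + 1)))) (𝓝[>] x) (𝓝 _)) ?_
  · refine tendsto_finsetSum _ fun n _ => ?_
    have e : 2 * a (τ^[n] x) (τ^[n + 1] x) * (η n * η (n + 1)) =
        2 * (Real.sqrt (a (τ^[n] x) (τ^[n + 1] x)) * Real.sqrt (a (τ^[n] x) (τ^[n + 1] x))) *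
          (η n * η (n + 1)) := by
      rw [Real.mul_self_sqrt (pa n).le]
    rw [e]
    exact (((tu n).mul_const _).add ((tv n).mul_const _)).add
      ((((ts n).sqrt.mul (tt n).sqrt).const_mul 2).mul_const _)
  · filter_upwards [self_mem_nhdsWithin, hspos, htpos] with z hz hs ht
    have hξ : ∀ n, 0 < τ^[n] z - τ^[n] x := fun n => sub_pos.mpr (hl.mono.iterate n hz)
    refine alg M η (fun n => τ^[n] z - τ^[n] x)
      (fun n => (q (τ^[n] z) (τ^[n + 1] z) - q (τ^[n] x) (τ^[n + 1] z)) / (τ^[n] z - τ^[n] x))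
      (fun n => (p (τ^[n] x) (τ^[n + 1] z) - p (τ^[n] x) (τ^[n + 1] x)) /
        (τ^[n + 1] z - τ^[n + 1] x))
      (fun n => (q (τ^[n] x) (τ^[n + 1] z) - q (τ^[n] x) (τ^[n + 1] x)) /
        (τ^[n + 1] z - τ^[n + 1] x))
      (fun n => (p (τ^[n] z) (τ^[n + 1] z) - p (τ^[n] x) (τ^[n + 1] z)) / (τ^[n] z - τ^[n] x))
      hξ ?_ (fun n hn => (hs n (Finset.mem_range.2 hn)).le)
      (fun n hn => (ht n (Finset.mem_range.2 hn)).le) h0 hM
    intro n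
    have i1 : ∀ w, q (τ^[n] w) (τ^[n + 1] w) + p (τ^[n + 1] w) (τ^[n + 2] w) = 0 := by
      intro w
      rw [Function.iterate_succ_apply' τ (n + 1), Function.iterate_succ_apply' τ n]
      exact hi _
    have k1 := (hξ n).ne'
    have k2 := (hξ (n + 1)).ne'
    have k3 := (hξ (n + 2)).ne'
    rw [div_mul_cancel₀ _ k1, add_mul, div_mul_cancel₀ _ k2, div_mul_cancel₀ _ k2]
    have e : (p (τ^[n + 1] x) (τ^[n + 1 + 1] z) - p (τ^[n + 1] x) (τ^[n + 1 + 1] x)) /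
        (τ^[n + 1 + 1] z - τ^[n + 1 + 1] x) * (τ^[n + 2] z - τ^[n + 2] x) =
        p (τ^[n + 1] x) (τ^[n + 2] z) - p (τ^[n + 1] x) (τ^[n + 2] x) := by
      exact div_mul_cancel₀ _ k3
    rw [e]
    have j1 := i1 z
    have j2 := i1 x
    have j3 : p (τ^[n + 1] z) (τ^[n + 1 + 1] z) = p (τ^[n + 1] z) (τ^[n + 2] z) := rfl
    have j4 : p (τ^[n + 1] x) (τ^[n + 1 + 1] z) = p (τ^[n + 1] x) (τ^[n + 2] z) := rfl
    rw [j3, j4]
    linarith

end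

/-- the quadratic form -/
noncomputable def Ps (a p0 q1 : ℝ → ℝ → ℝ) (f : ℝ → ℝ) (z : ℝ × ℝ) : ℝ :=
  p0 z.1 z.2 * f z.1 ^ 2 + q1 z.1 z.2 * f z.2 ^ 2 + 2 * a z.1 z.2 * f z.1 * f z.2

section
variable {T C : ℝ} {p q a p0 q1 : ℝ → ℝ → ℝ} (H : MD T C p q a p0 q1)
include H

theorem F_iter {τ : ℝ → ℝ} (hl : Leaf T τ) (hi : ∀ u, q u (τ u) + p (τ u) (τ (τ u)) = 0)
    (x : ℝ) (n : ℕ) : (F T p q)^[n] (x, τ x) = (τ^[n] x, τ^[n + 1] x) := by
  induction n with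
  | zero => rfl
  | succ n ih =>
    rw [Function.iterate_succ_apply', ih, Function.iterate_succ_apply' τ (n + 1),
      Function.iterate_succ_apply' τ n]
    exact F_leaf H hl hi _

/-- the pointwise inequality -/
theorem point_ineq {f : ℝ → ℝ} {B : ℝ} (hB : ∀ x, f x ^ 2 ≤ B) (M : ℕ) {x x' : ℝ}
    (h : x < x') (h' : x' < x + T) :
    ∑ n ∈ Finset.range M, Ps a p0 q1 f ((F T p q)^[n + 1] (x, x')) ≤ 2 * (C * B) := by
  obtain ⟨τ, hl, rfl, hi⟩ := H.cov x x' h h'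
  have hB0 : 0 ≤ B := (sq_nonneg _).trans (hB 0)
  have key := leaf_ineq H hl hi x M (fun n => if n = 0 ∨ n = M + 2 then 0 else f (τ^[n] x))
    (by simp) (by simp)
  rw [Finset.sum_range_succ, Finset.sum_range_succ'] at key
  have g1 : ∀ n, τ^[n] x < τ^[n + 1] x := fun n => by
    rw [Function.iterate_succ_apply']; exact hl.above _
  have g2 : ∀ n, τ^[n + 1] x < τ^[n] x + T := fun n => by
    rw [Function.iterate_succ_apply']; exact hl.below _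
  have c1 : ¬ (0 + 1 = 0 ∨ 0 + 1 = M + 2) := by omega
  have c4 : ¬ (M + 1 = 0 ∨ M + 1 = M + 2) := by omega
  simp only [if_neg c1, if_neg c4, true_or, or_true, if_true] at key
  have e : ∑ n ∈ Finset.range M, Ps a p0 q1 f ((F T p q)^[n + 1] (x, τ x)) =
      ∑ n ∈ Finset.range M, (q1 (τ^[n + 1] x) (τ^[n + 1 + 1] x) *
        (if n + 1 + 1 = 0 ∨ n + 1 + 1 = M + 2 then 0 else f (τ^[n + 1 + 1] x)) ^ 2 +
      p0 (τ^[n + 1] x) (τ^[n + 1 + 1] x) *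
        (if n + 1 = 0 ∨ n + 1 = M + 2 then 0 else f (τ^[n + 1] x)) ^ 2 +
      2 * a (τ^[n + 1] x) (τ^[n + 1 + 1] x) *
        ((if n + 1 = 0 ∨ n + 1 = M + 2 then 0 else f (τ^[n + 1] x)) *
        (if n + 1 + 1 = 0 ∨ n + 1 + 1 = M + 2 then 0 else f (τ^[n + 1 + 1] x)))) := by
    refine Finset.sum_congr rfl fun n hn => ?_
    have hn' := Finset.mem_range.1 hn
    have d1 : ¬ (n + 1 = 0 ∨ n + 1 = M + 2) := by omega
    have d2 : ¬ (n + 1 + 1 = 0 ∨ n + 1 + 1 = M + 2) := by omega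
    rw [if_neg d1, if_neg d2, F_iter H hl hi]
    unfold Ps
    simp only
    ring
  rw [e]
  have b1 := H.bq1 _ _ (g1 0) (g2 0)
  have b2 := H.bp0 _ _ (g1 (M + 1)) (g2 (M + 1))
  have hC : 0 ≤ C := (abs_nonneg _).trans b1
  have f1 : -(C * B) ≤ q1 (τ^[0] x) (τ^[0 + 1] x) * f (τ^[0 + 1] x) ^ 2 := by
    have := hB (τ^[0 + 1] x)
    have k : |q1 (τ^[0] x) (τ^[0 + 1] x) * f (τ^[0 + 1] x) ^ 2| ≤ C * B := by
      rw [abs_mul, abs_of_nonneg (sq_nonneg (f (τ^[0 + 1] x)))]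
      exact mul_le_mul b1 this (sq_nonneg _) hC
    exact (abs_le.mp k).1
  have f2 : -(C * B) ≤ p0 (τ^[M + 1] x) (τ^[M + 1 + 1] x) * f (τ^[M + 1] x) ^ 2 := by
    have := hB (τ^[M + 1] x)
    have k : |p0 (τ^[M + 1] x) (τ^[M + 1 + 1] x) * f (τ^[M + 1] x) ^ 2| ≤ C * B := by
      rw [abs_mul, abs_of_nonneg (sq_nonneg (f (τ^[M + 1] x)))]
      exact mul_le_mul b2 this (sq_nonneg _) hC
    exact (abs_le.mp k).1
  have z1 : (0 : ℝ) ^ 2 = 0 := by norm_num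
  rw [z1] at key
  linarith

end

end Pool.Agent.TH645.MB
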